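import Pool.Agent.V11228.F2F

/-!
# One bit of the products over `𝔽₂` with a preprocessed matrix: many reads or much memory, on average

The problem: an `n × n` matrix `M` over `𝔽₂` is preprocessed, then vectors are given, and the products
with `M` are to be found. We consider pairs of vectors `u`, `v` and the single bits `uᵀ M v`. The
matrix is FIXED, so the algorithm may depend on it in an arbitrary way: every preprocessing is free of
charge, even if it is not polynomial; and the vectors need not come online.

The model: Boolean circuits with AND gates of fan-in two, OR gates of any fan-in and negations at the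
inputs, whose inputs are the entries of `q` pairs of vectors. Such a circuit accepts if and only if it
has a proof tree all of whose leaves are true literals; the formal degree in an input bit is the
largest number of leaves with this bit, that is, the number of times this bit is read.
Nondeterministic, in particular deterministic, branching programs are such circuits (the logarithm
of the size is the memory, and a bit which is read at most `k` times on every path has degree at
most `k`), and so are programs with a stack.

We show an average-case bound. There are matrices such that circuits of size `2 ^ (n / 2 ^ (O (k)))`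
which are sound, i.e. which accept only if the bit `uᵀ M v` of the pair `j` has the value `σ` (`0` or
`1`), accept only an exponentially small fraction of all pairs `u`, `v`, if the formal degrees in the
`2 n` entries of the pair sum up to at most `k n`; the entries of the other pairs may be read as often
as one likes. So a randomized algorithm of this kind with a memory of `n ^ (1 - ε)` bits which is never
wrong, but which may give up with a probability exponentially close to one over uniformly random
vectors, must read the entries of the pair `Ω (ε n log n)` times; and a circuit which decides whether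
all `q` products are zero reads the entries `Ω (ε q n log n)` times, already if it is right when at most
one pair is different from zero. (Adding up the products of the entries one after the other is a
circuit of polynomial size which reads every entry `n` times.)

The starting results `StackTradeoff` and `TreewidthTimesReads` are about programs and circuits which
write all entries of the products (`n ^ 2` output bits); here the output is one bit, and the result
holds on average.

**Proof.** The matrix is that of an expander of degree `2 ^ (O (k))` (library). The accepted inputs are
covered by `size ^ (O (k ^ 2))` classes, one for each family of few pieces of a proof tree, such that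
after a coloring of the pieces by two sides the entries `u r` for `r` in a set `A` are read on one side
only, and the entries `v c` for `c` in a set `B` on the other side only (library). The sets have linear
size, and so they contain a triangular submatrix of linear size `h` (library). By the discrepancy bound
for sparse bilinear forms with a triangular part (`rect_disc`, library) a class of inputs with
`uᵀ M v = σ` contains at most a fraction `2 ^ (- h / 2)` of all pairs. In the library this is done for
instances of 3-SAT which are built for the circuit (`Pool.Agent.W896.RK.final`); there the places of the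
matrix are chosen after the circuit, here the matrix is fixed before, and the bound is average-case.
-/

set_option autoImplicit false

namespace Pool.Agent.Results.MP_0f1f76_lc.FormalDegree

open Pool.Agent.W896.RK Pool.Agent.V11228.F2

/-- The input bits are `(j, false, i)` and `(j, true, i)`, the entries `i` of the vectors `u` and `v`
of the pair `j`; `frm M u v = uᵀ M v`, and `fm M x j` is this value for the pair `j` of the input `x`;
`put y j u v` is the input whose pair `j` is `u`, `v` and whose other pairs are those of `y`;
`Single x` says that at most one pair of `x` is different from zero.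

(1) For all `k` and `n` there is a matrix `M` over the field with two elements such that for all `q`,
every pair `j`, all values `y` of the other pairs and `σ = 0, 1`: let `U r` (`r` in a finite nonempty
set) be circuits which accept an input only if `uᵀ M v = σ` for its pair `j` (if the other pairs are
those of `y`), and let the average acceptance probability over a random circuit and uniformly random
`u`, `v` be at least `2 ^ (- ⌊n / 2 ^ (50 (k + 1))⌋)`. If in each `U r` the formal degrees in the `2 n`
entries of the pair `j` sum up to at most `k n`, then some `U r` has `g` gates with
`n ≤ 2 ^ (50 (k + 1)) (⌊log₂ g⌋ + 1)`.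

(2) For `0 < ε ≤ 1` and all large `n` there is a matrix `M` such that for all `q`:
(a) if such a family has sizes at most `2 ^ w` and average acceptance probability at least `2 ^ (- μ)`,
where `w, μ ≤ n ^ (1 - ε)`, then in some `U r` the formal degrees in the entries of the pair `j` sum
up to at least `(ε / 150) n log₂ n`;
(b) if a circuit of size at most `2 ^ w` decides correctly, for all inputs with at most one nonzero
pair, whether all `q` products are zero, then the sum of all its formal degrees is at least
`(ε / 150) q n log₂ n`. -/
theorem result :
    (∀ k n : ℕ, ∃ M : Fin n → Fin n → ZMod 2,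
      ∀ (q : ℕ) (j : Fin q) (y : Fin q × Bool × Fin n → Bool) (σ : ZMod 2) (R : Type) [Fintype R]
        [Nonempty R] (U : R → Circ (Fin q × Bool × Fin n)),
        (∀ r u v, (U r).Val (put y j u v) (U r).out → frm M u v = σ) →
        Nat.card R * 4 ^ n ≤ 2 ^ (n / 2 ^ (50 * (k + 1))) *
          Nat.card {z : R × (Fin n → Bool) × (Fin n → Bool) //
            (U z.1).Val (put y j z.2.1 z.2.2) (U z.1).out} →
        (∀ r, ∃ d : (U r).G → Fin q × Bool × Fin n → ℕ, IsDeg (U r) id d ∧
          ∑ i, (d (U r).out (j, false, i) + d (U r).out (j, true, i)) ≤ k * n) →
        ∃ r, n ≤ 2 ^ (50 * (k + 1)) * (Nat.log 2 (Fintype.card (U r).G) + 1)) ∧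
    ∀ ε : ℝ, 0 < ε → ε ≤ 1 → ∃ n₀ : ℕ, ∀ n ≥ n₀, ∃ M : Fin n → Fin n → ZMod 2,
      (∀ q w μ : ℕ, (w : ℝ) ≤ (n : ℝ) ^ (1 - ε) → (μ : ℝ) ≤ (n : ℝ) ^ (1 - ε) →
        ∀ (j : Fin q) (y : Fin q × Bool × Fin n → Bool) (σ : ZMod 2) (R : Type) [Fintype R]
          [Nonempty R] (U : R → Circ (Fin q × Bool × Fin n)),
          (∀ r, Fintype.card (U r).G ≤ 2 ^ w) →
          (∀ r u v, (U r).Val (put y j u v) (U r).out → frm M u v = σ) →
          Nat.card R * 4 ^ n ≤ 2 ^ μ * Nat.card {z : R × (Fin n → Bool) × (Fin n → Bool) //
              (U z.1).Val (put y j z.2.1 z.2.2) (U z.1).out} →
          ∃ r, ∀ d : (U r).G → Fin q × Bool × Fin n → ℕ, IsDeg (U r) id d →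
            ε / 150 * (n * Real.logb 2 n) ≤
              (∑ i, (d (U r).out (j, false, i) + d (U r).out (j, true, i)) : ℕ)) ∧
      ∀ q w : ℕ, (w : ℝ) ≤ (n : ℝ) ^ (1 - ε) → ∀ U : Circ (Fin q × Bool × Fin n),
        Fintype.card U.G ≤ 2 ^ w →
        (∀ x, Single x → (U.Val x U.out ↔ ∀ j, fm M x j = 0)) →
        ∀ d : U.G → Fin q × Bool × Fin n → ℕ, IsDeg U id d →
          ε / 150 * (q * (n * Real.logb 2 n)) ≤ (∑ v, d U.out v : ℕ) := by
  classical
  refine ⟨fd_round, fun ε hε hε1 => ?_⟩
  obtain ⟨n₀, hn₀⟩ := fd_asym hε hε1
  refine ⟨max n₀ 1, fun n hn => ?_⟩
  have hn1 : 1 ≤ n := le_trans (le_max_right _ _) hn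
  obtain ⟨M, hM⟩ := hn₀ n (le_trans (le_max_left _ _) hn)
  refine ⟨M, hM, fun q w hw U hU0 hU d hd => ?_⟩
  have h1 := Pool.Agent.V11228.OMv.sum_rounds_le (c := ε / 150 * (n * Real.logb 2 n))
    (fun v => d U.out v) (fun j => by
      have hone : ((1 : ℕ) : ℝ) ≤ (n : ℝ) ^ (1 - ε) := by
        rw [Nat.cast_one]
        exact Real.one_le_rpow (by exact_mod_cast hn1) (by linarith)
      have key : ∀ u v : Fin n → Bool, U.Val (put (fun _ => false) j u v) U.out ↔
          frm M u v = 0 := fun u v => by
        rw [hU _ (single_put j u v), all_put]
      obtain ⟨r, hr⟩ := hM q w 1 hw hone j (fun _ => false) 0 Unit (fun _ => U) (fun _ => hU0)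
        (fun _ u v h => (key u v).1 h) (by
          rw [Nat.card_unique, one_mul, pow_one]
          refine (half_zero M).trans (Nat.mul_le_mul_left _ (le_of_eq ?_))
          rw [Nat.card_eq_fintype_card, Fintype.card_subtype]
          refine Finset.card_bij (fun z _ => ((), z)) ?_ ?_ ?_
          · intro z hz
            rw [Finset.mem_filter] at hz ⊢
            exact ⟨Finset.mem_univ _, (key _ _).2 hz.2⟩
          · intro z _ z' _ h
            exact (Prod.mk.inj h).2
          · rintro ⟨u, z⟩ hz
            rw [Finset.mem_filter] at hz
            exact ⟨z, Finset.mem_filter.2 ⟨Finset.mem_univ _, (key _ _).1 hz.2⟩, rfl⟩)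
      exact hr d hd)
  refine le_trans (le_of_eq ?_) h1
  ring

end Pool.Agent.Results.MP_0f1f76_lc.FormalDegree
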