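import Pool.Agent.V11228.F2U

/-!
# One bit of the products over `𝔽₂` with a preprocessed matrix: real tree tensor networks

As in `FormalDegree`, an `n × n` matrix `M` over `𝔽₂` is fixed, so that every preprocessing is free of
charge; `q` pairs of vectors `u`, `v` are given (not necessarily online), and the question is the value
of one of the bits `uᵀ M v`, or whether all of them are zero.

A tree tensor network (`Net`, `Pool/Agent/TH700/TN/Defs.lean`) is a binary tree. Every leaf reads one
bit and holds a vector for each of its two values; every inner node combines the vectors of its
children by an arbitrary bilinear map; the output is a linear form of the vector of the root. The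
dimension `|W|` of the vectors is the bond dimension, its logarithm is the memory. A bit may be read by
many leaves. Here the coefficients are real numbers, and the SIGN of the output gives the answer. So
randomized and even quantum computations of this kind with unbounded error are included, for instance
probabilistic or quantum oblivious branching programs of width `|W|` (up to a square) in which the bits
are read in any fixed order and any number of times. We also consider the acceptance by an output
different from zero.

We show that there are matrices for which the memory is at least `n / 2 ^ (O (k))` if the `2 n` entries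
of the pair in question are read at most `k n` times altogether, whatever happens with the other pairs.
So with a memory of `n ^ (1 - ε)` bits one has to read the entries of the pair `Ω (ε n log n)` times, and
the entries of all `q` pairs `Ω (ε q n log n)` times in order to decide whether all products are zero
(already if at most one pair is different from zero).

The real coefficients are essential: over the field with two elements itself there is, for every
matrix, a linear network (a matrix product) of bond dimension `n + 2` which reads every entry once and
whose output is `uᵀ M v`.

**Proof.** The matrix is that of an expander of degree `2 ^ (O (k))` (library). The tree is cut into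
`O (k ^ 2)` pieces; the output is a sum of `|W| ^ (O (k ^ 2))` products of functions of the pieces
(`net_pd`, library). A coloring of the pieces by two sides gives a set `A` of rows and a set `B` of
columns such that the entries of `u` in `A` are read on one side only and the entries of `v` in `B` on
the other one. The sets have linear size, and so they contain a triangular submatrix of linear size
`h` (library). If all other entries are zero, the outputs form a `2 ^ h × 2 ^ h` matrix of rank at most
`|W| ^ (O (k ^ 2))` whose signs form an orthogonal matrix. By Forster's theorem (library) the rank is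
at least `2 ^ (h / 2)`. If the outputs are different from zero exactly for one value of the bit, this is
applied to the difference of a small constant and the squares of the outputs.
-/

set_option autoImplicit false

namespace Pool.Agent.Results.MP_0f1f76_lc.TensorNetworks

open Pool.Agent.TH700.TN Pool.Agent.V11228.F2

/-- The input bits are `(j, false, i)` and `(j, true, i)`, the entries `i` of the vectors `u` and `v`
of the pair `j`; `frm M u v = uᵀ M v`, and `fm M x j` is this value for the pair `j` of the input `x`;
`put y j u v` is the input whose pair `j` is `u`, `v` and whose other pairs are those of `y`;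
`Single x` says that at most one pair of `x` is different from zero.

(1) For all `k` and `n` there is a matrix `M` over the field with two elements such that for all `q`,
every pair `j`, all values `y` of the other pairs and every real tree tensor network `T` with vectors
indexed by `W` and output vector `a`: if for all `u`, `v` (with the other pairs from `y`) the output
is positive if `uᵀ M v = 0` and negative otherwise, or if for some `σ` the output is different from
zero if and only if `uᵀ M v = σ`, and if `T` has at most `k n` leaves which read entries of the pair
`j`, then `n ≤ 2 ^ (50 (k + 1)) (⌊log₂ |W|⌋ + 1)`.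

(2) For `0 < ε ≤ 1` and all large `n` there is a matrix `M` such that for all `q`:
(a) if such a network has bond dimension at most `2 ^ w`, where `w ≤ n ^ (1 - ε)`, then it has at
least `(ε / 150) n log₂ n` leaves which read entries of the pair `j`;
(b) if a network of bond dimension at most `2 ^ w` decides (by the sign or by being different from
zero), for all inputs with at most one nonzero pair, whether all `q` products are zero, then it has at
least `(ε / 150) q n log₂ n` leaves.

(3) For every matrix with `n ≥ 1` and every pair `j` there is a linear network over the field with two
elements, of bond dimension `n + 2` and with one leaf for each of the `2 n` entries of the pair `j`,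
whose output is `uᵀ M v`. -/
theorem result :
    (∀ k n : ℕ, ∃ M : Fin n → Fin n → ZMod 2,
      ∀ (q : ℕ) (j : Fin q) (y : Fin q × Bool × Fin n → Bool) (W : Type) [Fintype W]
        (T : Net ℝ (Fin q × Bool × Fin n) W) (a : W → ℝ),
        ((∀ u v, (frm M u v = 0 → 0 < T.value a (put y j u v)) ∧
          (frm M u v ≠ 0 → T.value a (put y j u v) < 0)) ∨
          ∃ σ, ∀ u v, T.value a (put y j u v) ≠ 0 ↔ frm M u v = σ) →
        ∑ i, (T.reads (j, false, i) + T.reads (j, true, i)) ≤ k * n →
        n ≤ 2 ^ (50 * (k + 1)) * (Nat.log 2 (Fintype.card W) + 1)) ∧
    (∀ ε : ℝ, 0 < ε → ε ≤ 1 → ∃ n₀ : ℕ, ∀ n ≥ n₀, ∃ M : Fin n → Fin n → ZMod 2,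
      (∀ q w : ℕ, (w : ℝ) ≤ (n : ℝ) ^ (1 - ε) →
        ∀ (j : Fin q) (y : Fin q × Bool × Fin n → Bool) (W : Type) [Fintype W]
          (T : Net ℝ (Fin q × Bool × Fin n) W) (a : W → ℝ), Fintype.card W ≤ 2 ^ w →
          ((∀ u v, (frm M u v = 0 → 0 < T.value a (put y j u v)) ∧
            (frm M u v ≠ 0 → T.value a (put y j u v) < 0)) ∨
            ∃ σ, ∀ u v, T.value a (put y j u v) ≠ 0 ↔ frm M u v = σ) →
          ε / 150 * (n * Real.logb 2 n) ≤
            (∑ i, (T.reads (j, false, i) + T.reads (j, true, i)) : ℕ)) ∧
      ∀ q w : ℕ, (w : ℝ) ≤ (n : ℝ) ^ (1 - ε) → ∀ (W : Type) [Fintype W]
        (T : Net ℝ (Fin q × Bool × Fin n) W) (a : W → ℝ), Fintype.card W ≤ 2 ^ w →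
        ((∀ x, Single x → ((∀ j, fm M x j = 0) → 0 < T.value a x) ∧
          ((¬ ∀ j, fm M x j = 0) → T.value a x < 0)) ∨
          ∀ x, Single x → (T.value a x ≠ 0 ↔ ∀ j, fm M x j = 0)) →
          ε / 150 * (q * (n * Real.logb 2 n)) ≤ (∑ v, T.reads v : ℕ)) ∧
    ∀ (n q : ℕ), 1 ≤ n → ∀ (M : Fin n → Fin n → ZMod 2) (j : Fin q),
      ∃ (W : Type) (_ : Fintype W) (T : Net (ZMod 2) (Fin q × Bool × Fin n) W) (a : W → ZMod 2),
        Fintype.card W = n + 2 ∧ T.Linear ∧ (∀ s i, T.reads (j, s, i) = 1) ∧
          ∀ x, T.value a x = fm M x j := by
  refine ⟨tn_round, fun ε hε hε1 => ?_, fun n q hn M j => ?_⟩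
  · obtain ⟨n₀, hn₀⟩ := tn_asym hε hε1
    refine ⟨n₀, fun n hn => ?_⟩
    obtain ⟨M, hM⟩ := hn₀ n hn
    refine ⟨M, hM, fun q w hw W _ T a hT0 hT => ?_⟩
    have h1 := Pool.Agent.V11228.OMv.sum_rounds_le (c := ε / 150 * (n * Real.logb 2 n))
      (fun v => T.reads v) (fun j => by
        refine hM q w hw j (fun _ => false) W T a hT0 ?_
        rcases hT with hT | hT
        · left
          intro u v
          refine ⟨fun h => (hT _ (single_put j u v)).1 ((all_put M j u v).2 h),
            fun h => (hT _ (single_put j u v)).2 (fun h' => h ((all_put M j u v).1 h'))⟩
        · right
          exact ⟨0, fun u v => by rw [hT _ (single_put j u v), all_put]⟩)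
    refine le_trans (le_of_eq ?_) h1
    ring
  · obtain ⟨W, hW, T, a, h1, h2, h3, h4⟩ :=
      exists_chain hn M (Pool.Agent.V11228.OMv.pl_inj (n := n) j)
    refine ⟨W, hW, T, a, h1, h2, fun s i => ?_, fun x => h4 x⟩
    cases s with
    | false => exact h3 (Sum.inl i)
    | true => exact h3 (Sum.inr i)

end Pool.Agent.Results.MP_0f1f76_lc.TensorNetworks
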